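import Mathlib
import Pool.Agent.Helper69.MF.Core

/-!
Map folding: insertion of a folded strip at a contiguous row.

`T` is a folding of the rows `0 .. m1 - 1` in which the row `s` is contiguous; `T'` is a folding of
the rows `0 .. h` (`h` even) whose last row is last and whose first row is first (the latter only if
`s > 0`). Replacing the row `s` by the strip `T'` gives a folding.
-/

set_option autoImplicit false

namespace Pool.Agent.Helper64.MF

open Pool.Agent.Helper69.MF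

/-- The row `r` is contiguous in the stack. -/
def Contig (n m : ℕ) (p : Sq → ℕ) (r : ℕ) : Prop :=
  ∀ c < n, ∀ t < m, t ≠ r →
    (∀ c' < n, p (c, t) < p (c', r)) ∨ (∀ c' < n, p (c', r) < p (c, t))

/-- The squares of the row `r` are below all other squares. -/
def FirstRow (n m : ℕ) (p : Sq → ℕ) (r : ℕ) : Prop :=
  ∀ c < n, ∀ t < m, t ≠ r → ∀ c' < n, p (c', r) < p (c, t)

/-- The squares of the row `r` are above all other squares. -/
def LastRow (n m : ℕ) (p : Sq → ℕ) (r : ℕ) : Prop :=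
  ∀ c < n, ∀ t < m, t ≠ r → ∀ c' < n, p (c, t) < p (c', r)

/-- Row `r` of `p` and row `r'` of `q` are ordered in the same way. -/
def SameOrd (n : ℕ) (p : Sq → ℕ) (r : ℕ) (q : Sq → ℕ) (r' : ℕ) : Prop :=
  ∀ c < n, ∀ c' < n, (p (c, r) < p (c', r) ↔ q (c, r') < q (c', r'))

/-- Shift of the rows. -/
def sh (d : ℕ) (a : Sq) : Sq := (a.1, a.2 + d)

def csh (d : ℕ) (x : Cr) : Cr := ⟨x.k, x.c, x.r + d⟩

theorem csh_fst (d : ℕ) (x : Cr) : (csh d x).fst = sh d x.fst := rfl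

theorem csh_snd (d : ℕ) (x : Cr) : (csh d x).snd = sh d x.snd := by
  obtain ⟨k, c, r⟩ := x
  cases k
  · rfl
  · simp only [csh, Cr.snd, sh, if_true, Prod.mk.injEq, true_and]
    omega

theorem lo_csh {A B : Pat} {d : ℕ} {x : Cr} (h : B.dir (csh d x) = A.dir x) :
    B.lo (csh d x) = sh d (A.lo x) := by
  unfold Pat.lo
  rw [h]
  split_ifs
  · exact csh_fst d x
  · exact csh_snd d x

theorem hi_csh {A B : Pat} {d : ℕ} {x : Cr} (h : B.dir (csh d x) = A.dir x) :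
    B.hi (csh d x) = sh d (A.hi x) := by
  unfold Pat.hi
  rw [h]
  split_ifs
  · exact csh_snd d x
  · exact csh_fst d x

theorem lo_mem {A : Pat} {x : Cr} {R : Set Sq} (h : x.In R) : A.lo x ∈ R := by
  unfold Pat.lo
  split_ifs
  · exact h.1
  · exact h.2

theorem hi_mem {A : Pat} {x : Cr} {R : Set Sq} (h : x.In R) : A.hi x ∈ R := by
  unfold Pat.hi
  split_ifs
  · exact h.2
  · exact h.1

/-- The position function `p` is obtained from `p1` by replacing the row `s` by the stack of `p2`. -/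
structure Rel (n m1 s h : ℕ) (p1 p2 p : Sq → ℕ) : Prop where
  oo : ∀ a ∈ rect n m1, ∀ b ∈ rect n m1, ∀ a' b' : Sq,
    (a' = a ∧ a.2 < s ∨ a' = sh h a ∧ s < a.2) → (b' = b ∧ b.2 < s ∨ b' = sh h b ∧ s < b.2) →
    (p a' < p b' ↔ p1 a < p1 b)
  ii : ∀ a ∈ rect n (h + 1), ∀ b ∈ rect n (h + 1), (p (sh s a) < p (sh s b) ↔ p2 a < p2 b)
  oi : ∀ a ∈ rect n m1, ∀ b ∈ rect n (h + 1), ∀ c < n, ∀ a' : Sq,
    (a' = a ∧ a.2 < s ∨ a' = sh h a ∧ s < a.2) → (p a' < p (sh s b) ↔ p1 a < p1 (c, s))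
  io : ∀ a ∈ rect n m1, ∀ b ∈ rect n (h + 1), ∀ c < n, ∀ a' : Sq,
    (a' = a ∧ a.2 < s ∨ a' = sh h a ∧ s < a.2) → (p (sh s b) < p a' ↔ p1 (c, s) < p1 a)

theorem exists_rel {n m1 s h : ℕ} (hn : 0 < n) {p1 p2 : Sq → ℕ} (c1 : Contig n m1 p1 s) :
    ∃ p, Rel n m1 s h p1 p2 p := by
  classical
  obtain ⟨c0, hc0, hz⟩ : ∃ c0 < n, ∀ c < n, p1 (c0, s) ≤ p1 (c, s) := by
    have hne : (Finset.range n).Nonempty := ⟨0, Finset.mem_range.mpr hn⟩
    obtain ⟨c0, h0, h1⟩ := Finset.exists_min_image (Finset.range n) (fun c => p1 (c, s)) hne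
    exact ⟨c0, Finset.mem_range.mp h0, fun c hc => h1 c (Finset.mem_range.mpr hc)⟩
  obtain ⟨M, hM⟩ : ∃ M, ∀ c < n, ∀ t < h + 1, p2 (c, t) < M := by
    refine ⟨((Finset.range n) ×ˢ (Finset.range (h + 1))).sup p2 + 1, fun c hc t ht => ?_⟩
    have := Finset.le_sup (f := p2) (s := (Finset.range n) ×ˢ (Finset.range (h + 1)))
      (b := (c, t)) (by simp only [Finset.mem_product, Finset.mem_range]; exact ⟨hc, ht⟩)
    omega
  have hM0 : 0 < M := lt_of_le_of_lt (Nat.zero_le _) (hM 0 hn 0 (Nat.succ_pos h))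
  set z := p1 (c0, s) with hzdef
  set p : Sq → ℕ := fun x => if x.2 < s then p1 x * M else
    if x.2 ≤ s + h then z * M + p2 (x.1, x.2 - s) else p1 (x.1, x.2 - h) * M with hp
  have po : ∀ a a' : Sq, (a' = a ∧ a.2 < s ∨ a' = sh h a ∧ s < a.2) → p a' = p1 a * M := by
    rintro ⟨c, t⟩ a' (⟨rfl, h1⟩ | ⟨rfl, h1⟩)
    · simp only at h1
      simp only [hp, h1, if_true]
    · simp only at h1
      have e1 : ¬ (t + h < s) := by omega
      have e2 : ¬ (t + h ≤ s + h) := by omega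
      simp only [hp, sh, e1, e2, if_false, Nat.add_sub_cancel]
  have pi : ∀ b ∈ rect n (h + 1), p (sh s b) = z * M + p2 b := by
    rintro ⟨c, t⟩ ⟨h1, h2⟩
    simp only at h1 h2
    have e1 : ¬ (t + s < s) := by omega
    have e2 : t + s ≤ s + h := by omega
    simp only [hp, sh, e1, e2, if_false, if_true, Nat.add_sub_cancel]
  have hb : ∀ b ∈ rect n (h + 1), p2 b < M := fun b hb => hM b.1 hb.1 b.2 hb.2
  have hside : ∀ a ∈ rect n m1, a.2 ≠ s →
      (p1 a < z ∧ ∀ c < n, p1 a < p1 (c, s)) ∨ (z < p1 a ∧ ∀ c < n, p1 (c, s) < p1 a) := by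
    rintro ⟨c, t⟩ ⟨h1, h2⟩ h3
    rcases c1 c h1 t h2 h3 with h4 | h4
    · exact Or.inl ⟨h4 c0 hc0, h4⟩
    · exact Or.inr ⟨h4 c0 hc0, h4⟩
  have hne : ∀ a a' : Sq, (a' = a ∧ a.2 < s ∨ a' = sh h a ∧ s < a.2) → a.2 ≠ s := by
    rintro a a' (⟨_, h1⟩ | ⟨_, h1⟩) <;> omega
  refine ⟨p, ⟨?_, ?_, ?_, ?_⟩⟩
  · intro a _ b _ a' b' h1 h2
    rw [po a a' h1, po b b' h2]
    exact Nat.mul_lt_mul_right hM0
  · intro a ha b hb'
    rw [pi a ha, pi b hb']
    omega
  · intro a ha b hb' c hc a' h1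
    rw [po a a' h1, pi b hb']
    have hbM := hb b hb'
    rcases hside a ha (hne a a' h1) with ⟨h4, h5⟩ | ⟨h4, h5⟩
    · refine ⟨fun _ => h5 c hc, fun _ => ?_⟩
      have : p1 a * M < z * M := Nat.mul_lt_mul_of_pos_right h4 hM0
      omega
    · refine ⟨fun h6 => ?_, fun h6 => absurd h6 (not_lt.mpr (h5 c hc).le)⟩
      have : (z + 1) * M ≤ p1 a * M := Nat.mul_le_mul_right M h4
      rw [Nat.add_mul] at this
      omega
  · intro a ha b hb' c hc a' h1
    rw [po a a' h1, pi b hb']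
    have hbM := hb b hb'
    rcases hside a ha (hne a a' h1) with ⟨h4, h5⟩ | ⟨h4, h5⟩
    · refine ⟨fun h6 => ?_, fun h6 => absurd h6 (not_lt.mpr (h5 c hc).le)⟩
      have : p1 a * M < z * M := Nat.mul_lt_mul_of_pos_right h4 hM0
      omega
    · refine ⟨fun _ => h5 c hc, fun _ => ?_⟩
      have : (z + 1) * M ≤ p1 a * M := Nat.mul_le_mul_right M h4
      rw [Nat.add_mul] at this
      omega

/-! ### The insertion theorem -/

theorem lo_row {A : Pat} (x : Cr) :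
    (A.lo x).2 = x.r ∨ x.k = true ∧ (A.lo x).2 = x.r + 1 := by
  obtain ⟨k, c, r⟩ := x
  unfold Pat.lo
  cases k <;> split_ifs <;> simp [Cr.fst, Cr.snd]

theorem hi_row {A : Pat} (x : Cr) :
    (A.hi x).2 = x.r ∨ x.k = true ∧ (A.hi x).2 = x.r + 1 := by
  obtain ⟨k, c, r⟩ := x
  unfold Pat.hi
  cases k <;> split_ifs <;> simp [Cr.fst, Cr.snd]

/-- The crease `x` of the new sheet comes from the crease `x'` of the old sheet, outside the row
`s`. -/
def Outer (n m1 s h : ℕ) (x x' : Cr) : Prop :=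
  x'.In (rect n m1) ∧ (x = x' ∧ x'.r < s ∨ x = csh h x' ∧ (s < x'.r ∨ x'.k = true ∧ x'.r = s))

/-- The square `a'` of the new sheet, an end of a crease on the page `pg`, comes from the square
`a` of the old sheet which may lie on a seam. -/
def OSq (s h : ℕ) (pg : Bool × ℕ) (a a' : Sq) : Prop :=
  (a' = a ∧ a.2 < s ∨ a' = sh h a ∧ s < a.2) ∨
    (a.2 = s ∧ 0 < s ∧ a' = sh s (a.1, 0) ∧ pg = (true, (s - 1) % 2)) ∨
    (a.2 = s ∧ a' = sh s (a.1, h) ∧ pg = (true, (s + h) % 2))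

theorem page_csh {d : ℕ} (hd : d % 2 = 0) (x : Cr) : (csh d x).page = x.page := by
  obtain ⟨k, c, r⟩ := x
  cases k
  · simp only [Cr.page, csh, Bool.false_eq_true, if_false]
  · simp only [Cr.page, csh, Prod.mk.injEq, true_and, if_true]
    omega

theorem page_csh_csh {d : ℕ} {x y : Cr} (h : (csh d x).page = (csh d y).page) :
    x.page = y.page := by
  obtain ⟨k, c, r⟩ := x
  obtain ⟨k', c', r'⟩ := y
  simp only [Cr.page, csh, Prod.mk.injEq] at h ⊢
  obtain ⟨rfl, h⟩ := h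
  refine ⟨rfl, ?_⟩
  cases k
  · simpa only [Bool.false_eq_true, if_false] using h
  · simp only [if_true] at h ⊢
    omega

section insert

variable {n m1 s h : ℕ} {A1 A2 B : Pat} {p1 p2 p : Sq → ℕ}

/-- The agreement of the patterns. -/
structure Agree (n m1 s h : ℕ) (A1 A2 B : Pat) : Prop where
  H1 : ∀ c r, c + 1 < n → r < s → B.H c r = A1.H c r
  H2 : ∀ c r, c + 1 < n → s < r → r < m1 → B.H c (r + h) = A1.H c r
  H3 : ∀ c r, c + 1 < n → r ≤ h → B.H c (r + s) = A2.H c r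
  V1 : ∀ c r, c < n → r < s → B.V c r = A1.V c r
  V2 : ∀ c r, c < n → s ≤ r → r + 1 < m1 → B.V c (r + h) = A1.V c r
  V3 : ∀ c r, c < n → r < h → B.V c (r + s) = A2.V c r

theorem classify (hs : s < m1) {x : Cr} (hx : x.In (rect n (m1 + h))) :
    (∃ x', Outer n m1 s h x x') ∨ ∃ x' : Cr, x'.In (rect n (h + 1)) ∧ x = csh s x' := by
  obtain ⟨k, c, r⟩ := x
  cases k
  · simp only [Cr.In, Cr.fst, Cr.snd, rect, Bool.false_eq_true, if_false, Set.mem_ofPred_eq] at hx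
    by_cases h1 : r < s
    · refine Or.inl ⟨⟨false, c, r⟩, ?_, Or.inl ⟨rfl, h1⟩⟩
      simp only [Cr.In, Cr.fst, Cr.snd, rect, Bool.false_eq_true, if_false, Set.mem_ofPred_eq]
      omega
    · by_cases h2 : r ≤ s + h
      · refine Or.inr ⟨⟨false, c, r - s⟩, ?_, ?_⟩
        · simp only [Cr.In, Cr.fst, Cr.snd, rect, Bool.false_eq_true, if_false, Set.mem_ofPred_eq]
          omega
        · simp only [csh, Cr.mk.injEq, true_and]
          omega
      · refine Or.inl ⟨⟨false, c, r - h⟩, ?_, Or.inr ⟨?_, Or.inl ?_⟩⟩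
        · simp only [Cr.In, Cr.fst, Cr.snd, rect, Bool.false_eq_true, if_false, Set.mem_ofPred_eq]
          omega
        · simp only [csh, Cr.mk.injEq, true_and]
          omega
        · simp only
          omega
  · simp only [Cr.In, Cr.fst, Cr.snd, rect, if_true, Set.mem_ofPred_eq] at hx
    by_cases h1 : r < s
    · refine Or.inl ⟨⟨true, c, r⟩, ?_, Or.inl ⟨rfl, h1⟩⟩
      simp only [Cr.In, Cr.fst, Cr.snd, rect, if_true, Set.mem_ofPred_eq]
      omega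
    · by_cases h2 : r < s + h
      · refine Or.inr ⟨⟨true, c, r - s⟩, ?_, ?_⟩
        · simp only [Cr.In, Cr.fst, Cr.snd, rect, if_true, Set.mem_ofPred_eq]
          omega
        · simp only [csh, Cr.mk.injEq, true_and]
          omega
      · refine Or.inl ⟨⟨true, c, r - h⟩, ?_, Or.inr ⟨?_, ?_⟩⟩
        · simp only [Cr.In, Cr.fst, Cr.snd, rect, if_true, Set.mem_ofPred_eq]
          omega
        · simp only [csh, Cr.mk.injEq, true_and]
          omega
        · simp only [true_and]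
          omega

theorem Agree.outer_dir (g : Agree n m1 s h A1 A2 B) {x x' : Cr}
    (hx : Outer n m1 s h x x') : B.dir x = A1.dir x' := by
  obtain ⟨k, c, r⟩ := x'
  obtain ⟨h1, h2⟩ := hx
  cases k
  · simp only [Cr.In, Cr.fst, Cr.snd, rect, Bool.false_eq_true, if_false, Set.mem_ofPred_eq] at h1
    rcases h2 with ⟨rfl, h2⟩ | ⟨rfl, h2⟩
    · simp only [Pat.dir, Bool.false_eq_true, if_false]
      exact g.H1 c r (by omega) h2
    · simp only [Bool.false_eq_true, false_and, or_false] at h2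
      simp only [Pat.dir, csh, Bool.false_eq_true, if_false]
      exact g.H2 c r (by omega) h2 (by omega)
  · simp only [Cr.In, Cr.fst, Cr.snd, rect, if_true, Set.mem_ofPred_eq] at h1
    rcases h2 with ⟨rfl, h2⟩ | ⟨rfl, h2⟩
    · simp only [Pat.dir, if_true]
      exact g.V1 c r (by omega) h2
    · simp only [true_and] at h2
      simp only [Pat.dir, csh, if_true]
      exact g.V2 c r (by omega) (by omega) (by omega)

theorem Agree.inner_dir (g : Agree n m1 s h A1 A2 B) {x : Cr}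
    (hx : x.In (rect n (h + 1))) : B.dir (csh s x) = A2.dir x := by
  obtain ⟨k, c, r⟩ := x
  cases k
  · simp only [Cr.In, Cr.fst, Cr.snd, rect, Bool.false_eq_true, if_false, Set.mem_ofPred_eq] at hx
    simp only [Pat.dir, csh, Bool.false_eq_true, if_false]
    exact g.H3 c r (by omega) (by omega)
  · simp only [Cr.In, Cr.fst, Cr.snd, rect, if_true, Set.mem_ofPred_eq] at hx
    simp only [Pat.dir, csh, if_true]
    exact g.V3 c r (by omega) (by omega)

theorem Outer.osq {x x' : Cr} (hx : Outer n m1 s h x x') {a a' : Sq}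
    (h1 : a.2 = x'.r ∨ x'.k = true ∧ a.2 = x'.r + 1)
    (h3 : x = x' ∧ x'.r < s ∧ a' = a ∨
      x = csh h x' ∧ (s < x'.r ∨ x'.k = true ∧ x'.r = s) ∧ a' = sh h a) :
    OSq s h x.page a a' := by
  obtain ⟨k, c, r⟩ := x'
  obtain ⟨u, v⟩ := a
  simp only at h1
  rcases h3 with ⟨rfl, h4, rfl⟩ | ⟨rfl, h4, rfl⟩
  · simp only at h4
    by_cases h5 : v = s
    · right; left
      subst h5
      rcases h1 with h1 | ⟨rfl, h1⟩
      · omega
      · refine ⟨rfl, by omega, ?_, ?_⟩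
        · simp only [sh, Nat.zero_add]
        · simp only [Cr.page, if_true, Prod.mk.injEq, true_and]
          omega
    · left; left
      refine ⟨rfl, ?_⟩
      simp only
      omega
  · simp only at h4
    by_cases h5 : v = s
    · right; right
      subst h5
      have hr : k = true ∧ r = v := by
        rcases h4 with h4 | h4
        · rcases h1 with h1 | ⟨rfl, h1⟩ <;> omega
        · exact h4
      obtain ⟨rfl, rfl⟩ := hr
      refine ⟨rfl, ?_, ?_⟩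
      · simp only [sh, Prod.mk.injEq, true_and]
        omega
      · simp only [Cr.page, csh, if_true]
    · left; right
      refine ⟨rfl, ?_⟩
      simp only
      omega

theorem Agree.lo_out (g : Agree n m1 s h A1 A2 B) {x x' : Cr}
    (hx : Outer n m1 s h x x') : OSq s h x.page (A1.lo x') (B.lo x) := by
  refine hx.osq (lo_row x') ?_
  have hd := g.outer_dir hx
  rcases hx with ⟨h1, ⟨rfl, h2⟩ | ⟨rfl, h2⟩⟩
  · refine Or.inl ⟨rfl, h2, ?_⟩
    unfold Pat.lo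
    rw [hd]
  · exact Or.inr ⟨rfl, h2, lo_csh hd⟩

theorem Agree.hi_out (g : Agree n m1 s h A1 A2 B) {x x' : Cr}
    (hx : Outer n m1 s h x x') : OSq s h x.page (A1.hi x') (B.hi x) := by
  refine hx.osq (hi_row x') ?_
  have hd := g.outer_dir hx
  rcases hx with ⟨h1, ⟨rfl, h2⟩ | ⟨rfl, h2⟩⟩
  · refine Or.inl ⟨rfl, h2, ?_⟩
    unfold Pat.hi
    rw [hd]
  · exact Or.inr ⟨rfl, h2, hi_csh hd⟩

/-- Comparison of two ends of outer creases on the same page. -/
theorem Rel.cmp (R : Rel n m1 s h p1 p2 p) (hh : s = 0 ∨ h % 2 = 0)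
    (hl : SameOrd n p1 s p2 h) (hf : s = 0 ∨ SameOrd n p1 s p2 0) {pg : Bool × ℕ}
    {a a' b b' : Sq} (ha : a ∈ rect n m1) (hb : b ∈ rect n m1)
    (oa : OSq s h pg a a') (ob : OSq s h pg b b') : p a' < p b' ↔ p1 a < p1 b := by
  rcases oa with oa | ⟨ea, oa⟩ | ⟨ea, oa⟩
  · rcases ob with ob | ⟨eb, ob⟩ | ⟨eb, ob⟩
    · exact R.oo a ha b hb a' b' oa ob
    · obtain ⟨c, t⟩ := b
      simp only at eb ob
      subst eb
      rw [ob.2.1]
      exact R.oi a ha (c, 0) ⟨hb.1, Nat.succ_pos h⟩ c hb.1 a' oa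
    · obtain ⟨c, t⟩ := b
      simp only at eb ob
      subst eb
      rw [ob.1]
      exact R.oi a ha (c, h) ⟨hb.1, Nat.lt_succ_self h⟩ c hb.1 a' oa
  · obtain ⟨c, t⟩ := a
    simp only at ea oa
    subst ea
    rcases ob with ob | ⟨eb, ob⟩ | ⟨eb, ob⟩
    · rw [oa.2.1]
      exact R.io b hb (c, 0) ⟨ha.1, Nat.succ_pos h⟩ c ha.1 b' ob
    · obtain ⟨c', t'⟩ := b
      simp only at eb ob
      subst eb
      rw [oa.2.1, ob.2.1, R.ii (c, 0) ⟨ha.1, Nat.succ_pos h⟩ (c', 0) ⟨hb.1, Nat.succ_pos h⟩]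
      rcases hf with hf | hf
      · omega
      · exact (hf c ha.1 c' hb.1).symm
    · exfalso
      have e := oa.2.2
      rw [ob.2] at e
      simp only [Prod.mk.injEq, true_and] at e
      omega
  · obtain ⟨c, t⟩ := a
    simp only at ea oa
    subst ea
    rcases ob with ob | ⟨eb, ob⟩ | ⟨eb, ob⟩
    · rw [oa.1]
      exact R.io b hb (c, h) ⟨ha.1, Nat.lt_succ_self h⟩ c ha.1 b' ob
    · exfalso
      have e := oa.2
      rw [ob.2.2] at e
      simp only [Prod.mk.injEq, true_and] at e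
      omega
    · obtain ⟨c', t'⟩ := b
      simp only at eb ob
      subst eb
      rw [oa.1, ob.1, R.ii (c, h) ⟨ha.1, Nat.lt_succ_self h⟩ (c', h) ⟨hb.1, Nat.lt_succ_self h⟩]
      exact (hl c ha.1 c' hb.1).symm

/-- No end of an outer crease lies strictly inside an inner crease on the same page. -/
theorem Rel.sep (R : Rel n m1 s h p1 p2 p)
    (ll : LastRow n (h + 1) p2 h) (lf : s = 0 ∨ FirstRow n (h + 1) p2 0)
    {z : Cr} (hz : z.In (rect n (h + 1))) {a a' : Sq} (ha : a ∈ rect n m1)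
    (oa : OSq s h (csh s z).page a a') :
    ¬ (p (sh s (A2.lo z)) < p a' ∧ p a' < p (sh s (A2.hi z))) := by
  rintro ⟨h1, h2⟩
  rcases oa with oa | ⟨ea, oa⟩ | ⟨ea, oa⟩
  · rw [R.io a ha _ (lo_mem hz) a.1 ha.1 a' oa] at h1
    rw [R.oi a ha _ (hi_mem hz) a.1 ha.1 a' oa] at h2
    exact absurd h2 (not_lt.mpr h1.le)
  · obtain ⟨c, t⟩ := a
    simp only at ea oa
    subst ea
    obtain ⟨h3, rfl, h4⟩ := oa
    rw [R.ii _ (lo_mem hz) (c, 0) ⟨ha.1, Nat.succ_pos h⟩] at h1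
    rcases lf with lf | lf
    · omega
    have h5 : (A2.lo z).2 ≠ 0 := by
      rcases lo_row (A := A2) z with h5 | ⟨_, h5⟩
      · obtain ⟨k, c', r⟩ := z
        simp only [Cr.page, csh, Prod.mk.injEq] at h4
        obtain ⟨rfl, h4⟩ := h4
        simp only [if_true] at h4
        simp only at h5
        omega
      · omega
    have h6 := lf _ (lo_mem (A := A2) hz).1 _ (lo_mem (A := A2) hz).2 h5 c ha.1
    exact absurd h1 (not_lt.mpr h6.le)
  · obtain ⟨c, t⟩ := a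
    simp only at ea oa
    subst ea
    obtain ⟨rfl, h4⟩ := oa
    rw [R.ii (c, h) ⟨ha.1, Nat.lt_succ_self h⟩ _ (hi_mem hz)] at h2
    have h5 : (A2.hi z).2 ≠ h := by
      obtain ⟨k, c', r⟩ := z
      simp only [Cr.page, csh, Prod.mk.injEq] at h4
      obtain ⟨rfl, h4⟩ := h4
      simp only [if_true] at h4
      have h6 : r + 1 < h + 1 := by
        have := hz.2.2
        simpa only [Cr.snd, if_true] using this
      rcases hi_row (A := A2) ⟨true, c', r⟩ with h5 | ⟨_, h5⟩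
      · simp only at h5
        omega
      · simp only at h5
        omega
    have h6 := ll _ (hi_mem (A := A2) hz).1 _ (hi_mem (A := A2) hz).2 h5 c ha.1
    exact absurd h2 (not_lt.mpr h6.le)

theorem Outer.page_eq (hh : s = 0 ∨ h % 2 = 0) {x x' y y' : Cr} (hx : Outer n m1 s h x x')
    (hy : Outer n m1 s h y y') (hp : x.page = y.page) : x'.page = y'.page := by
  rcases hh with hh | hh
  · subst hh
    rcases hx with ⟨_, ⟨rfl, h1⟩ | ⟨rfl, _⟩⟩
    · omega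
    · rcases hy with ⟨_, ⟨rfl, h2⟩ | ⟨rfl, _⟩⟩
      · omega
      · exact page_csh_csh hp
  · have key : ∀ z z' : Cr, Outer n m1 s h z z' → z.page = z'.page := by
      rintro z z' ⟨_, ⟨rfl, _⟩ | ⟨rfl, _⟩⟩
      · rfl
      · exact page_csh hh z'
    rw [← key x x' hx, ← key y y' hy, hp]

/-- Every square of the new sheet comes from an outer or from an inner square. -/
theorem sq_cases (hs : s < m1) {a' : Sq} (ha : a' ∈ rect n (m1 + h)) :
    (∃ a ∈ rect n m1, (a' = a ∧ a.2 < s ∨ a' = sh h a ∧ s < a.2)) ∨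
      ∃ b ∈ rect n (h + 1), a' = sh s b := by
  obtain ⟨c, r⟩ := a'
  simp only [rect, Set.mem_ofPred_eq] at ha
  by_cases h1 : s ≤ r ∧ r ≤ s + h
  · refine Or.inr ⟨(c, r - s), ⟨ha.1, ?_⟩, ?_⟩
    · simp only
      omega
    · simp only [sh, Prod.mk.injEq, true_and]
      omega
  · by_cases h2 : r < s
    · exact Or.inl ⟨(c, r), ⟨ha.1, h2.trans hs⟩, Or.inl ⟨rfl, h2⟩⟩
    · refine Or.inl ⟨(c, r - h), ⟨ha.1, ?_⟩, Or.inr ⟨?_, ?_⟩⟩
      · simp only
        omega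
      · simp only [sh, Prod.mk.injEq, true_and]
        omega
      · simp only
        omega

/-- Insertion of a strip at a contiguous row. -/
theorem Rel.fold (R : Rel n m1 s h p1 p2 p) (hs : s < m1) (hh : s = 0 ∨ h % 2 = 0)
    (g : Agree n m1 s h A1 A2 B) (F1 : Fold A1 (rect n m1) p1) (F2 : Fold A2 (rect n (h + 1)) p2)
    (c1 : Contig n m1 p1 s) (ll : LastRow n (h + 1) p2 h) (lf : s = 0 ∨ FirstRow n (h + 1) p2 0)
    (hl : SameOrd n p1 s p2 h) (hf : s = 0 ∨ SameOrd n p1 s p2 0) :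
    Fold B (rect n (m1 + h)) p where
  inj := by
    have key : ∀ a ∈ rect n m1, ∀ b ∈ rect n (h + 1), ∀ a' : Sq,
        (a' = a ∧ a.2 < s ∨ a' = sh h a ∧ s < a.2) → p a' ≠ p (sh s b) := by
      intro a ha b hb a' h1 h2
      have h3 : a.2 ≠ s := by
        rcases h1 with ⟨_, h1⟩ | ⟨_, h1⟩ <;> omega
      rcases c1 a.1 ha.1 a.2 ha.2 h3 with h4 | h4
      · have := (R.oi a ha b hb a.1 ha.1 a' h1).mpr (h4 a.1 ha.1)
        omega
      · have := (R.io a ha b hb a.1 ha.1 a' h1).mpr (h4 a.1 ha.1)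
        omega
    intro a' ha b' hb he
    rcases sq_cases hs ha with ⟨a, ha1, ha2⟩ | ⟨a, ha1, rfl⟩
    · rcases sq_cases hs hb with ⟨b, hb1, hb2⟩ | ⟨b, hb1, rfl⟩
      · have h1 : ¬ p1 a < p1 b := by
          rw [← R.oo a ha1 b hb1 a' b' ha2 hb2]
          omega
        have h2 : ¬ p1 b < p1 a := by
          rw [← R.oo b hb1 a ha1 b' a' hb2 ha2]
          omega
        have h3 : a = b := F1.inj a ha1 b hb1 (by omega)
        subst h3
        rcases ha2 with ⟨ha2, ha3⟩ | ⟨ha2, ha3⟩ <;> rcases hb2 with ⟨hb2, hb3⟩ | ⟨hb2, hb3⟩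
        · rw [ha2, hb2]
        · omega
        · omega
        · rw [ha2, hb2]
      · exact absurd he (key a ha1 b hb1 a' ha2)
    · rcases sq_cases hs hb with ⟨b, hb1, hb2⟩ | ⟨b, hb1, rfl⟩
      · exact absurd he.symm (key b hb1 a ha1 b' hb2)
      · have h1 : ¬ p2 a < p2 b := by
          rw [← R.ii a ha1 b hb1]
          omega
        have h2 : ¬ p2 b < p2 a := by
          rw [← R.ii b hb1 a ha1]
          omega
        rw [F2.inj a ha1 b hb1 (by omega)]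
  dir := by
    intro x hx
    rcases classify hs hx with ⟨x', ho⟩ | ⟨x', h1, rfl⟩
    · rw [R.cmp hh hl hf (lo_mem ho.1) (hi_mem ho.1) (g.lo_out ho) (g.hi_out ho)]
      exact F1.dir x' ho.1
    · have hd := g.inner_dir h1
      rw [lo_csh hd, hi_csh hd, R.ii _ (lo_mem h1) _ (hi_mem h1)]
      exact F2.dir x' h1
  nc := by
    rintro x y hx hy hp ⟨h1, h2, h3⟩
    rcases classify hs hx with ⟨x', ho⟩ | ⟨x', h4, rfl⟩
    · rcases classify hs hy with ⟨y', ho'⟩ | ⟨y', h5, rfl⟩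
      · rw [R.cmp hh hl hf (lo_mem ho.1) (lo_mem ho'.1) (g.lo_out ho)
          (hp ▸ g.lo_out ho')] at h1
        rw [R.cmp hh hl hf (lo_mem ho'.1) (hi_mem ho.1) (hp ▸ g.lo_out ho')
          (g.hi_out ho)] at h2
        rw [R.cmp hh hl hf (hi_mem ho.1) (hi_mem ho'.1) (g.hi_out ho)
          (hp ▸ g.hi_out ho')] at h3
        exact F1.nc x' y' ho.1 ho'.1 (ho.page_eq hh ho' hp) ⟨h1, h2, h3⟩
      · have hd := g.inner_dir h5
        rw [lo_csh hd] at h2
        rw [hi_csh hd] at h3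
        exact R.sep ll lf h5 (hi_mem ho.1) (hp ▸ g.hi_out ho) ⟨h2, h3⟩
    · have hd := g.inner_dir h4
      rcases classify hs hy with ⟨y', ho'⟩ | ⟨y', h5, rfl⟩
      · rw [lo_csh hd] at h1
        rw [hi_csh hd] at h2
        exact R.sep ll lf h4 (lo_mem ho'.1) (hp ▸ g.lo_out ho') ⟨h1, h2⟩
      · have hd' := g.inner_dir h5
        rw [lo_csh hd, lo_csh hd', R.ii _ (lo_mem h4) _ (lo_mem h5)] at h1
        rw [lo_csh hd', hi_csh hd, R.ii _ (lo_mem h5) _ (hi_mem h4)] at h2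
        rw [hi_csh hd, hi_csh hd', R.ii _ (hi_mem h4) _ (hi_mem h5)] at h3
        exact F2.nc x' y' h4 h5 (page_csh_csh hp) ⟨h1, h2, h3⟩

/-! ### Tracking of rows -/

theorem sq_out {c u t t' : ℕ} {a : Sq} (htt : t' = t ∧ t < s ∨ t' = t + h ∧ s < t)
    (hu : u ≠ t') (ha : (c, u) = a ∧ a.2 < s ∨ (c, u) = sh h a ∧ s < a.2) : a.1 = c ∧ a.2 ≠ t := by
  obtain ⟨c1, u1⟩ := a
  simp only [sh, Prod.mk.injEq] at ha
  simp only
  omega

/-- Comparison of an old row with a square of the new sheet. -/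
theorem Rel.side_out (R : Rel n m1 s h p1 p2 p) (hs : s < m1) {t t' : ℕ} (ht : t < m1)
    (htt : t' = t ∧ t < s ∨ t' = t + h ∧ s < t) {c u : ℕ} (hc : c < n) (hu : u < m1 + h)
    (hut : u ≠ t') : ∃ v < m1, v ≠ t ∧ ∀ c' < n,
      (p (c, u) < p (c', t') ↔ p1 (c, v) < p1 (c', t)) ∧
      (p (c', t') < p (c, u) ↔ p1 (c', t) < p1 (c, v)) := by
  have hout : ∀ c' < n, ((c', t') : Sq) = (c', t) ∧ ((c', t) : Sq).2 < s ∨
      ((c', t') : Sq) = sh h (c', t) ∧ s < ((c', t) : Sq).2 := by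
    intro c' _
    rcases htt with ⟨rfl, h1⟩ | ⟨rfl, h1⟩
    · exact Or.inl ⟨rfl, h1⟩
    · exact Or.inr ⟨rfl, h1⟩
  rcases sq_cases (n := n) hs (a' := (c, u)) ⟨hc, hu⟩ with ⟨a, ha1, ha2⟩ | ⟨b, hb1, hb2⟩
  · obtain ⟨h1, h2⟩ := sq_out htt hut ha2
    obtain ⟨c1, v⟩ := a
    simp only at h1 h2
    subst h1
    refine ⟨v, ha1.2, h2, fun c' hc' => ⟨?_, ?_⟩⟩
    · exact R.oo _ ha1 (c', t) ⟨hc', ht⟩ _ _ ha2 (hout c' hc')
    · exact R.oo (c', t) ⟨hc', ht⟩ _ ha1 _ _ (hout c' hc') ha2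
  · refine ⟨s, hs, by omega, fun c' hc' => ⟨?_, ?_⟩⟩
    · rw [hb2]
      exact R.io (c', t) ⟨hc', ht⟩ b hb1 c hc _ (hout c' hc')
    · rw [hb2]
      exact R.oi (c', t) ⟨hc', ht⟩ b hb1 c hc _ (hout c' hc')

theorem Rel.contig_out (R : Rel n m1 s h p1 p2 p) (hs : s < m1) {t t' : ℕ} (ht : t < m1)
    (htt : t' = t ∧ t < s ∨ t' = t + h ∧ s < t) (ct : Contig n m1 p1 t) :
    Contig n (m1 + h) p t' := by
  intro c hc u hu hut
  obtain ⟨v, hv, hvt, key⟩ := R.side_out hs ht htt hc hu hut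
  rcases ct c hc v hv hvt with h1 | h1
  · exact Or.inl fun c' hc' => (key c' hc').1.mpr (h1 c' hc')
  · exact Or.inr fun c' hc' => (key c' hc').2.mpr (h1 c' hc')

theorem Rel.first_out (R : Rel n m1 s h p1 p2 p) (hs : s < m1) {t t' : ℕ} (ht : t < m1)
    (htt : t' = t ∧ t < s ∨ t' = t + h ∧ s < t) (ct : FirstRow n m1 p1 t) :
    FirstRow n (m1 + h) p t' := by
  intro c hc u hu hut
  obtain ⟨v, hv, hvt, key⟩ := R.side_out hs ht htt hc hu hut
  exact fun c' hc' => (key c' hc').2.mpr (ct c hc v hv hvt c' hc')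

theorem Rel.last_out (R : Rel n m1 s h p1 p2 p) (hs : s < m1) {t t' : ℕ} (ht : t < m1)
    (htt : t' = t ∧ t < s ∨ t' = t + h ∧ s < t) (ct : LastRow n m1 p1 t) :
    LastRow n (m1 + h) p t' := by
  intro c hc u hu hut
  obtain ⟨v, hv, hvt, key⟩ := R.side_out hs ht htt hc hu hut
  exact fun c' hc' => (key c' hc').1.mpr (ct c hc v hv hvt c' hc')

theorem Rel.same_out (R : Rel n m1 s h p1 p2 p) {t t' : ℕ} (ht : t < m1)
    (htt : t' = t ∧ t < s ∨ t' = t + h ∧ s < t) : SameOrd n p t' p1 t := by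
  intro c hc c' hc'
  refine R.oo (c, t) ⟨hc, ht⟩ (c', t) ⟨hc', ht⟩ _ _ ?_ ?_
  · rcases htt with ⟨rfl, h1⟩ | ⟨rfl, h1⟩
    · exact Or.inl ⟨rfl, h1⟩
    · exact Or.inr ⟨rfl, h1⟩
  · rcases htt with ⟨rfl, h1⟩ | ⟨rfl, h1⟩
    · exact Or.inl ⟨rfl, h1⟩
    · exact Or.inr ⟨rfl, h1⟩

theorem Rel.same_in (R : Rel n m1 s h p1 p2 p) {j : ℕ} (hj : j ≤ h) :
    SameOrd n p (j + s) p2 j := by
  intro c hc c' hc'
  exact R.ii (c, j) ⟨hc, Nat.lt_succ_of_le hj⟩ (c', j) ⟨hc', Nat.lt_succ_of_le hj⟩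

theorem Rel.contig_in (R : Rel n m1 s h p1 p2 p) (hs : s < m1) (c1 : Contig n m1 p1 s) {j : ℕ}
    (hj : j ≤ h) (cj : Contig n (h + 1) p2 j) : Contig n (m1 + h) p (j + s) := by
  intro c hc u hu hut
  rcases sq_cases (n := n) hs (a' := (c, u)) ⟨hc, hu⟩ with ⟨a, ha1, ha2⟩ | ⟨b, hb1, hb2⟩
  · have h3 : a.2 ≠ s := by
      rcases ha2 with ⟨_, h1⟩ | ⟨_, h1⟩ <;> omega
    rcases c1 a.1 ha1.1 a.2 ha1.2 h3 with h4 | h4
    · left
      intro c' hc'
      exact (R.oi a ha1 (c', j) ⟨hc', Nat.lt_succ_of_le hj⟩ c' hc' _ ha2).mpr (h4 c' hc')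
    · right
      intro c' hc'
      exact (R.io a ha1 (c', j) ⟨hc', Nat.lt_succ_of_le hj⟩ c' hc' _ ha2).mpr (h4 c' hc')
  · obtain ⟨c1', v⟩ := b
    simp only [sh, Prod.mk.injEq] at hb2
    obtain ⟨rfl, rfl⟩ := hb2
    have h5 : v ≠ j := by
      rintro rfl
      exact hut rfl
    rcases cj c hc v hb1.2 h5 with h4 | h4
    · left
      intro c' hc'
      exact (R.ii (c, v) hb1 (c', j) ⟨hc', Nat.lt_succ_of_le hj⟩).mpr (h4 c' hc')
    · right
      intro c' hc'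
      exact (R.ii (c', j) ⟨hc', Nat.lt_succ_of_le hj⟩ (c, v) hb1).mpr (h4 c' hc')

theorem Rel.first_in (R : Rel n m1 s h p1 p2 p) (hs : s < m1) (c1 : FirstRow n m1 p1 s) {j : ℕ}
    (hj : j ≤ h) (cj : FirstRow n (h + 1) p2 j) : FirstRow n (m1 + h) p (j + s) := by
  intro c hc u hu hut c' hc'
  rcases sq_cases (n := n) hs (a' := (c, u)) ⟨hc, hu⟩ with ⟨a, ha1, ha2⟩ | ⟨b, hb1, hb2⟩
  · have h3 : a.2 ≠ s := by
      rcases ha2 with ⟨_, h1⟩ | ⟨_, h1⟩ <;> omega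
    exact (R.io a ha1 (c', j) ⟨hc', Nat.lt_succ_of_le hj⟩ c' hc' _ ha2).mpr
      (c1 a.1 ha1.1 a.2 ha1.2 h3 c' hc')
  · obtain ⟨c1', v⟩ := b
    simp only [sh, Prod.mk.injEq] at hb2
    obtain ⟨rfl, rfl⟩ := hb2
    have h5 : v ≠ j := by
      rintro rfl
      exact hut rfl
    exact (R.ii (c', j) ⟨hc', Nat.lt_succ_of_le hj⟩ (c, v) hb1).mpr (cj c hc v hb1.2 h5 c' hc')

theorem Rel.last_in (R : Rel n m1 s h p1 p2 p) (hs : s < m1) (c1 : LastRow n m1 p1 s) {j : ℕ}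
    (hj : j ≤ h) (cj : LastRow n (h + 1) p2 j) : LastRow n (m1 + h) p (j + s) := by
  intro c hc u hu hut c' hc'
  rcases sq_cases (n := n) hs (a' := (c, u)) ⟨hc, hu⟩ with ⟨a, ha1, ha2⟩ | ⟨b, hb1, hb2⟩
  · have h3 : a.2 ≠ s := by
      rcases ha2 with ⟨_, h1⟩ | ⟨_, h1⟩ <;> omega
    exact (R.oi a ha1 (c', j) ⟨hc', Nat.lt_succ_of_le hj⟩ c' hc' _ ha2).mpr
      (c1 a.1 ha1.1 a.2 ha1.2 h3 c' hc')
  · obtain ⟨c1', v⟩ := b
    simp only [sh, Prod.mk.injEq] at hb2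
    obtain ⟨rfl, rfl⟩ := hb2
    have h5 : v ≠ j := by
      rintro rfl
      exact hut rfl
    exact (R.ii (c, v) hb1 (c', j) ⟨hc', Nat.lt_succ_of_le hj⟩).mpr (cj c hc v hb1.2 h5 c' hc')

end insert

/-! ### Chaining two strips along a row -/

/-- The pattern seen from the row `d` on. -/
def up (d : ℕ) (A : Pat) : Pat := ⟨fun c r => A.H c (r + d), fun c r => A.V c (r + d)⟩

/-- Glue a folding of the rows `0 .. h` with last row `h` and a folding of the rows `h .. h + m1 - 1`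
in which the row `h` is contiguous and ordered in the same way. -/
theorem chain {n m1 h : ℕ} (hn : 0 < n) (hm : 0 < m1) {B : Pat} {p1 p2 : Sq → ℕ}
    (F2 : Fold B (rect n (h + 1)) p2) (F1 : Fold (up h B) (rect n m1) p1)
    (c1 : Contig n m1 p1 0) (ll : LastRow n (h + 1) p2 h) (hl : SameOrd n p1 0 p2 h) :
    ∃ p, Rel n m1 0 h p1 p2 p ∧ Fold B (rect n (m1 + h)) p := by
  obtain ⟨p, R⟩ := exists_rel (p2 := p2) (h := h) hn c1
  refine ⟨p, R, R.fold hm (Or.inl rfl) ?_ F1 F2 c1 ll (Or.inl rfl) hl (Or.inl rfl)⟩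
  refine ⟨?_, ?_, ?_, ?_, ?_, ?_⟩
  · intro c r _ h1
    omega
  · intro c r _ _ _
    rfl
  · intro c r _ _
    rfl
  · intro c r _ h1
    omega
  · intro c r _ _ _
    rfl
  · intro c r _ _
    rfl

end Pool.Agent.Helper64.MF
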