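import Pool.Agent.Helper64.MF.SubstRow

/-!
Map folding: assembly of the strips of full width along the rows.
-/

set_option autoImplicit false

namespace Pool.Agent.Helper64.MF

open Pool.Agent.Helper69.MF

/-- The row `r` of `p` is ordered by `w`. -/
def Std (n : ℕ) (w : ℕ → ℕ) (p : Sq → ℕ) (r : ℕ) : Prop :=
  ∀ c < n, ∀ c' < n, (p (c, r) < p (c', r) ↔ w c < w c')

theorem Std.same {n : ℕ} {w : ℕ → ℕ} {p q : Sq → ℕ} {r r' : ℕ} (h : Std n w p r)
    (h' : Std n w q r') : SameOrd n p r q r' :=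
  fun c hc c' hc' => (h c hc c' hc').trans (h' c hc c' hc').symm

theorem Std.of_same {n : ℕ} {w : ℕ → ℕ} {p q : Sq → ℕ} {r r' : ℕ} (h : Std n w q r')
    (h' : SameOrd n p r q r') : Std n w p r :=
  fun c hc c' hc' => (h' c hc c' hc').trans (h c hc c' hc')

theorem FirstRow.contig {n m : ℕ} {p : Sq → ℕ} {r : ℕ} (h : FirstRow n m p r) :
    Contig n m p r := fun c hc t ht htr => Or.inr fun c' hc' => h c hc t ht htr c' hc'

theorem LastRow.contig {n m : ℕ} {p : Sq → ℕ} {r : ℕ} (h : LastRow n m p r) :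
    Contig n m p r := fun c hc t ht htr => Or.inl fun c' hc' => h c hc t ht htr c' hc'

/-- A strip of the rows `0 .. h` of the pattern `A`: the first row is contiguous, the last row is
last, and both have the standard order `w`. -/
def SB (A : Pat) (n : ℕ) (w : ℕ → ℕ) (h : ℕ) : Prop :=
  ∃ p, Fold A (rect n (h + 1)) p ∧ Contig n (h + 1) p 0 ∧ LastRow n (h + 1) p h ∧
    Std n w p 0 ∧ Std n w p h

/-- The same with the first row first. -/
def SP (A : Pat) (n : ℕ) (w : ℕ → ℕ) (h : ℕ) : Prop :=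
  ∃ p, Fold A (rect n (h + 1)) p ∧ FirstRow n (h + 1) p 0 ∧ LastRow n (h + 1) p h ∧
    Std n w p 0 ∧ Std n w p h

/-- The pattern `A` without the rows `s + 1, ..., s + h` (the row `s` takes the place of the row
`s + h`). -/
def cut (s h : ℕ) (A : Pat) : Pat :=
  ⟨fun c r => if r ≤ s then A.H c r else A.H c (r + h),
   fun c r => if r < s then A.V c r else A.V c (r + h)⟩

/-- A strip for the nest: first row first, last row last, the row `s` contiguous, the three rows
have the standard order. -/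
def SN (A : Pat) (n : ℕ) (w : ℕ → ℕ) (s m : ℕ) : Prop :=
  ∃ p, Fold A (rect n (m + 1)) p ∧ FirstRow n (m + 1) p 0 ∧ LastRow n (m + 1) p m ∧
    Contig n (m + 1) p s ∧ Std n w p 0 ∧ Std n w p s ∧ Std n w p m

theorem SP.sb {A : Pat} {n : ℕ} {w : ℕ → ℕ} {h : ℕ} (H : SP A n w h) : SB A n w h := by
  obtain ⟨p, h1, h2, h3⟩ := H
  exact ⟨p, h1, h2.contig, h3⟩

theorem up_up (d e : ℕ) (A : Pat) : up d (up e A) = up (e + d) A := by
  unfold up
  simp only [Nat.add_assoc, Nat.add_comm d e]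

section

variable {A : Pat} {n : ℕ} {w : ℕ → ℕ}

theorem SB.chain (hn : 0 < n) {h k : ℕ} (hk : 0 < k) (H1 : SB A n w h)
    (H2 : SB (up h A) n w k) : SB A n w (h + k) := by
  obtain ⟨p2, F2, c2, l2, s20, s2h⟩ := H1
  obtain ⟨p1, F1, c1, l1, s10, s1k⟩ := H2
  obtain ⟨p, R, F⟩ := MF.chain hn (Nat.succ_pos k) F2 F1 c1 l2 (s10.same s2h)
  have e : k + 1 + h = h + k + 1 := by omega
  rw [e] at F
  refine ⟨p, F, ?_, ?_, ?_, ?_⟩
  · have := R.contig_in (Nat.succ_pos k) c1 (Nat.zero_le h) c2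
    rwa [e] at this
  · have := R.last_out (t := k) (t' := k + h) (Nat.succ_pos k) (Nat.lt_succ_self k)
      (Or.inr ⟨rfl, hk⟩) l1
    rwa [e, Nat.add_comm k h] at this
  · exact s20.of_same (R.same_in (Nat.zero_le h))
  · have := s1k.of_same (R.same_out (t := k) (t' := k + h) (Nat.lt_succ_self k)
      (Or.inr ⟨rfl, hk⟩))
    rwa [Nat.add_comm k h] at this

theorem SP.chain (hn : 0 < n) {h k : ℕ} (hk : 0 < k) (H1 : SP A n w h)
    (H2 : SP (up h A) n w k) : SP A n w (h + k) := by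
  obtain ⟨p2, F2, c2, l2, s20, s2h⟩ := H1
  obtain ⟨p1, F1, c1, l1, s10, s1k⟩ := H2
  obtain ⟨p, R, F⟩ := MF.chain hn (Nat.succ_pos k) F2 F1 c1.contig l2 (s10.same s2h)
  have e : k + 1 + h = h + k + 1 := by omega
  rw [e] at F
  refine ⟨p, F, ?_, ?_, ?_, ?_⟩
  · have := R.first_in (Nat.succ_pos k) c1 (Nat.zero_le h) c2
    rwa [e] at this
  · have := R.last_out (t := k) (t' := k + h) (Nat.succ_pos k) (Nat.lt_succ_self k)
      (Or.inr ⟨rfl, hk⟩) l1
    rwa [e, Nat.add_comm k h] at this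
  · exact s20.of_same (R.same_in (Nat.zero_le h))
  · have := s1k.of_same (R.same_out (t := k) (t' := k + h) (Nat.lt_succ_self k)
      (Or.inr ⟨rfl, hk⟩))
    rwa [Nat.add_comm k h] at this

/-- The nest: the strip of the rows `s .. s + h` is inserted at the row `s` of the cut pattern. -/
theorem SN.nest (hn : 0 < n) {s m h : ℕ} (hs0 : 0 < s) (hsm : s < m) (hh : h % 2 = 0)
    (H1 : SN (cut s h A) n w s m) (H2 : SP (up s A) n w h) : SP A n w (m + h) := by
  obtain ⟨p1, F1, f1, l1, c1, s10, s1s, s1m⟩ := H1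
  obtain ⟨p2, F2, f2, l2, s20, s2h⟩ := H2
  obtain ⟨p, R⟩ := exists_rel (p2 := p2) (h := h) hn c1
  have hs : s < m + 1 := by omega
  have g : Agree n (m + 1) s h (cut s h A) (up s A) A := by
    refine ⟨?_, ?_, ?_, ?_, ?_, ?_⟩
    · intro c r _ h1
      simp only [cut, h1.le, if_true]
    · intro c r _ h1 _
      simp only [cut, not_le.mpr h1, if_false]
    · intro c r _ _
      rfl
    · intro c r _ h1
      simp only [cut, h1, if_true]
    · intro c r _ h1 _
      simp only [cut, not_lt.mpr h1, if_false]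
    · intro c r _ _
      rfl
  have F := R.fold hs (Or.inr hh) g F1 F2 c1 l2 (Or.inr f2) (s1s.same s2h)
    (Or.inr (s1s.same s20))
  have e : m + 1 + h = m + h + 1 := by omega
  rw [e] at F
  refine ⟨p, F, ?_, ?_, ?_, ?_⟩
  · have := R.first_out hs (t := 0) (t' := 0) (Nat.succ_pos m) (Or.inl ⟨rfl, hs0⟩) f1
    rwa [e] at this
  · have := R.last_out hs (t := m) (t' := m + h) (Nat.lt_succ_self m) (Or.inr ⟨rfl, hsm⟩) l1
    rwa [e] at this
  · exact s10.of_same (R.same_out (t := 0) (t' := 0) (Nat.succ_pos m) (Or.inl ⟨rfl, hs0⟩))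
  · exact s1m.of_same (R.same_out (t := m) (t' := m + h) (Nat.lt_succ_self m)
      (Or.inr ⟨rfl, hsm⟩))

end

/-- Hypotheses on one group of 52 rows: one of the three modes. -/
def Group (A : Pat) (n : ℕ) (w : ℕ → ℕ) : Prop :=
  (SN (cut 8 36 A) n w 8 16 ∧ SP (up 8 A) n w 18 ∧ SP (up 26 A) n w 18) ∨
  (SB A n w 8 ∧ SP (up 8 A) n w 18 ∧ SB (up 26 A) n w 8 ∧ SB (up 34 A) n w 10 ∧
    SB (up 44 A) n w 8) ∨
  (SP A n w 18 ∧ SB (up 18 A) n w 8 ∧ SB (up 26 A) n w 8 ∧ SB (up 34 A) n w 10 ∧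
    SB (up 44 A) n w 8)

theorem Group.sb {A : Pat} {n : ℕ} {w : ℕ → ℕ} (hn : 0 < n) (G : Group A n w) :
    SB A n w 52 := by
  rcases G with ⟨h1, h2, h3⟩ | ⟨h1, h2, h3, h4, h5⟩ | ⟨h1, h2, h3, h4, h5⟩
  · have h4 : SP (up 8 A) n w 36 := by
      refine SP.chain (h := 18) (k := 18) hn (by norm_num) h2 ?_
      rw [up_up]
      exact h3
    exact (SN.nest (m := 16) (s := 8) (h := 36) hn (by norm_num) (by norm_num) (by norm_num)
      h1 h4).sb
  · refine SB.chain (h := 8) (k := 44) hn (by norm_num) h1 ?_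
    refine SB.chain (h := 18) (k := 26) hn (by norm_num) h2.sb ?_
    rw [up_up]
    refine SB.chain (h := 8) (k := 18) hn (by norm_num) h3 ?_
    rw [up_up]
    refine SB.chain (h := 10) (k := 8) hn (by norm_num) h4 ?_
    rw [up_up]
    exact h5
  · refine SB.chain (h := 18) (k := 34) hn (by norm_num) h1.sb ?_
    refine SB.chain (h := 8) (k := 26) hn (by norm_num) h2 ?_
    rw [up_up]
    refine SB.chain (h := 8) (k := 18) hn (by norm_num) h3 ?_
    rw [up_up]
    refine SB.chain (h := 10) (k := 8) hn (by norm_num) h4 ?_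
    rw [up_up]
    exact h5

/-- One row alone. -/
def Row (A : Pat) (n : ℕ) (w : ℕ → ℕ) : Prop := ∃ p, Fold A (rect n 1) p ∧ Std n w p 0

theorem Row.sb {A : Pat} {n : ℕ} {w : ℕ → ℕ} (H : Row A n w) : SB A n w 0 := by
  obtain ⟨p, h1, h2⟩ := H
  refine ⟨p, h1, ?_, ?_, h2, h2⟩
  · intro c _ t ht ht0
    omega
  · intro c _ t ht ht0
    omega

/-- The whole sheet. -/
theorem foldable_of_groups {A : Pat} {n M : ℕ} {w : ℕ → ℕ} (hn : 0 < n)
    (h0 : Row A n w) (hg : ∀ g < M, Group (up (52 * g) A) n w) :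
    Foldable A n (52 * M + 1) := by
  have key : ∀ m, m ≤ M → SB A n w (52 * m) := by
    intro m
    induction m with
    | zero => exact fun _ => h0.sb
    | succ m ih =>
      intro hm
      exact SB.chain (h := 52 * m) (k := 52) hn (by norm_num) (ih (by omega))
        ((hg m (by omega)).sb hn)
  obtain ⟨p, hp, _⟩ := key M le_rfl
  exact ⟨p, hp⟩

end Pool.Agent.Helper64.MF
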